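import Mathlib
import Pool.Agent.R135.CrownNum

/-!
# MP_a14af5_co: the order polytope of the face lattice of a 13-gon is not Ehrhart-nonnegative
-/

set_option autoImplicit false

namespace Pool.Agent.Results.MP_a14af5_co.NotEhrhartNonneg

open Pool.Agent.R135.OrderPoly Pool.Agent.R135.Crown Pool.Agent.R135.CrownNum

/-- `L` is the Ehrhart polynomial of the order polytope of `P`:
`L(t) = #(t O(P) ∩ ℤ^P)` for all integers `t ≥ 0`. -/
def IsEhrhartPolynomial (P : Type) [PartialOrder P] (L : Polynomial ℚ) : Prop :=
  ∀ t : ℕ, L.eval (t : ℚ) = (latticeCount (orderPolytope P) t : ℚ)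

/-- **Main theorem.** The order polytope of the face lattice of a convex `13`-gon has an Ehrhart
polynomial, and (as it is unique) the coefficient of `t` in it is
`-298495711/35302608 < 0`. -/
theorem result : (∃ L : Polynomial ℚ, IsEhrhartPolynomial (Face 13) L) ∧
    ∀ L : Polynomial ℚ, IsEhrhartPolynomial (Face 13) L →
      L.coeff 1 = -(298495711 / 35302608) ∧ L.coeff 1 < 0 := by
  refine ⟨⟨ehr (Face 13), eval_ehr⟩, ?_⟩
  intro L hL
  have : L = ehr (Face 13) := by
    apply Polynomial.eq_of_infinite_eval_eq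
    apply Set.infinite_of_injective_forall_mem (f := fun t : ℕ => (t : ℚ)) Nat.cast_injective
    intro t
    rw [Set.mem_ofPred_eq, hL t, eval_ehr t]
  rw [this, coeff_value]
  refine ⟨rfl, ?_⟩
  norm_num

end Pool.Agent.Results.MP_a14af5_co.NotEhrhartNonneg
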